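import Pool.Agent.WL.Main
import Pool.Agent.UN5.Fin

/-!
# MP_cb388a_ag: finite generation of Weil-etale cohomology for curves of genus at most two together
with almost all abelian varieties

`T : ChowTheory V` are the Chow groups with rational coefficients of the smooth projective varieties
over the field `k` with `q = T.q` elements (all fields of the structure are in Fulton, Intersection
Theory, Chapters 1 - 8), and `K : Cohomology T` is `l`-adic cohomology with complex coefficients
(Kuenneth formula, Lefschetz trace formula, Deligne's theorem on the absolute values of the
eigenvalues of Frobenius).  `D : Raw.AbelianMotives K` is the class `D.Ab` of the motives `h¹(A)` of the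
abelian varieties `A` over `k`, and the finite fields `D.E N` with `q ^ N` elements, with what is known
about them: polarisations, finite dimensionality (Shermenev, Kimura), Tate's theorem on the
endomorphisms of abelian varieties, products, restriction of scalars.  `G : WL.Classes K` is a class of
smooth projective varieties (`G.v X` for `X : G.U`) which contains the point and the products, for
example all of them, with Weil-etale motivic cohomology and `l`-adic cohomology `G.coh X` for all `l`,
cycle classes, and the action of correspondences.  `(G.coh X).L n` says that all groups
`H^i_W(X, ℤ(n))` are finitely generated.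

(1) Let `Λ` be a set of complex numbers of absolute value `√q` with the partner property `Par q Λ`:
if a power of `z y₁ ⋯ y_(2 j - 1)`, `z, y_i ∈ Λ`, is the same power of `q ^ j`, then `z y_i` is `q` times a
root of unity, for some `i`.  Let `X` be a variety whose motive is in the category generated, under
tensor products, duals, direct sums and direct summands, by the Tate motives, the motives `h(D.E N)` of
all finite extensions of `k`, and the motives `h¹(A)` of all abelian varieties `A` all of whose
eigenvalues of Frobenius are in `Λ`; for example a product of such abelian varieties, of curves whose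
Jacobians are such abelian varieties, and of Kummer surfaces of them.  Then all groups
`H^i_W(X, ℤ(n))`, `i ∈ ℤ`, `n ≥ 0`, are finitely generated.

Let `p` be the prime number with `q = p ^ r`.  The Frobenius of an abelian variety of dimension `g` over
`k` has the characteristic polynomial `x ^ g h (x + q / x)`, `h` a real Weil polynomial: monic with
integral coefficients, all roots real and in `[-2√q, 2√q]` (`RW g q`); `Om q h` is the set of its roots.
`Adm q S` are the complex numbers which are, up to roots of unity, `√q` or in `Om q h`, `h ∈ S`: so (1) with
`Λ = Adm q S` is about the abelian varieties whose simple factors over the algebraic closure of `k` are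
supersingular or come from `S`.  `FL q` are the `h` such that the Galois group is transitive on
`Om q h` and contains all sign changes `a ↔ q / a`, not supersingular.

(2) Let `S₁ ⊆ FL q`, and let `S₂` be any set of real Weil polynomials such that `Om q h'` has less elements
than `Om q h` for `h' ∈ S₂`, `h ∈ S₁`.  Then `Adm q (S₁ ∪ S₂)` has the partner property IF AND ONLY IF
`Adm q S₂` has it and `S₁` satisfies the criterion `Cr q v S₁`: if `h_1, ..., h_n ∈ S₁` are pairwise not
geometrically isogenous (`GIso`), each `B_i` is one element of `Om q h_i` or a pair of two elements with
product different from `q` (`RS`), at least one of them is a single element, and all `B_i` give the same field `Fd (B_i)`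
(generated by the sum and the product), then the slope vectors of the `B_i` for the extension `v` of
the `p`-adic absolute value (`Val`) are linearly independent.  In particular (`S₂` empty) the criterion is
exact for sets in `FL q`.

(3) Let `All 1 q` be the `h = x + c` of the elliptic curves (`p ∤ c` or `q ∣ c²`), and `T2 q` the
`h = x² + A x + B` of the abelian surfaces (Rueck): `p ∤ B` (ordinary), or `p ∣ B`, `p ∤ A`, `q ∣ B²` and `D'` is
zero or not a `p`-adic square (`p`-rank one), or `q ∣ A²`, `q ∣ B` (supersingular).  Here
`D = A² - 4 B`, `D' = (B + 4 q)² - 4 q A²`.  Let `ND q` be the surfaces for which one of `D`, `D'`, `D D'` is a square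
(the Galois group is not dihedral of order `8`), `NO q` these and all which are not ordinary (`p ∣ B`), and
`OT q` those in `ND q` and all ordinary ones (`p ∤ B`).  There are sets `S q ⊆ FL q`, for all powers `q` of prime
numbers, which satisfy the criterion, contain all ordinary elliptic curves, and have density one among
all isogeny classes of abelian varieties, for every dimension `g ≥ 1`: let `A q` be any set of real Weil
polynomials of degree `g` which contains the ordinary ones (`Ord g q`), all others with `q ∣ h(0) ^ 2`
(`All g q`); for example the set of all isogeny classes of abelian varieties of dimension `g` over the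
field with `q` elements (Honda, Tate).  Then the proportion of `S q` in `A q` tends to `1` as `q` tends to
infinity.  And the set `S q ∪ All 1 q ∪ N` satisfies the hypotheses of (1), where `N` is the set

 - `T2 q` of all abelian surfaces, for `q = 3, 7, 11, 27, 43, 243`,
 - `OT q`, which contains all ordinary ones, for `q ≤ 16` and `q = 25, 32, 49, 64, 81, 125, 256, 512`,
 - `NO q`, which contains all surfaces of `p`-rank one, for `q` congruent to `3` modulo `4`,
 - `ND q`, for all `q`.

So (1) holds for all products of curves of genus `≤ 2` over the fields with `3`, `7`, `11`, `27`, `43`, `243`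
elements, of all ordinary curves of genus `≤ 2` over the fields of the second list, and of all curves of
genus `≤ 2` whose Jacobians are not of dihedral type over any finite field, always together with the
abelian varieties of every dimension in the sets `S q`, which are almost all as `q` tends to infinity.

Method.  Words `Y ⊗ ⋯ ⊗ Y ⊗ U`, `Y = h¹(A)` with eigenvalues in `Λ`, `U = L ^ a ⊗ h(D.E N)`, and their
summands are closed under all operations.  The Frobenius of `Y` is semisimple, Lagrange idempotents
split a word over an extension of the field into pieces with one eigenvalue of each factor, and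
restriction of scalars descends the pieces to `k`.  A piece on which Frobenius has the eigenvalue `1`
and a numerically nontrivial part has, by the partner property, two factors whose eigenvalues have the
product `q`; they contribute a divisor class, by Tate's theorem, and it splits off a shorter word.  A
piece without numerically nontrivial part is zero by Kimura's theorem for `h¹(A) ⊗ h¹(A)` and induction.
So rational and numerical equivalence agree and the Tate conjecture holds on the generated category,
the exterior products of cycles split `h(X)` into Tate motives and a part on which `1 - q ^ (-n) F` is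
invertible for all `n`, and this gives the finiteness, integrally and for all `i`, `n` (the groups
are finite up to the part given by the Tate motives, by Gabber, Deligne and the comparison with
`l`-adic cohomology).  (2): a relation between elements of `Om q h`, `h ∈ S₁`, and of `Om q h'`, `h' ∈ S₂`, is
split by the Galois group: since `Om q h'` is smaller than `Om q h` and `h` has all sign changes, there is an
automorphism which fixes an element of `Om q h'` and changes the sign of an element of `Om q h`, so the
slope functions of the two kinds are orthogonal; the relations between the elements of the `Om q h`,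
`h ∈ S₁`, are classified by linear relations between slope vectors.  (3) is a sieve in the space of the
real Weil polynomials (the Galois groups are as large as possible and the splitting fields are
different for almost all pairs), the classification of the reflex pairs of abelian surfaces, and
finite checks with exact integer arithmetic in the kernel.
-/

set_option autoImplicit false

open CategoryTheory MonoidalCategory Limits Polynomial Filter CHS AlmostAll Pool.Agent.GT3

universe x

namespace Pool.Agent.Results.MP_cb388a_ag.AlmostAllAbelianVarieties

/-- Finite generation of Weil-etale motivic cohomology for curves of genus at most two together with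
almost all abelian varieties. -/
theorem result :
    (∀ (V : Type) [Category.{0} V] [CartesianMonoidalCategory V] (T : ChowTheory.{0, 0, 0} V)
      (K : Cohomology.{0, 0, 0, x} T) (D : Raw.AbelianMotives K) (G : WL.Classes K)
      (Λ : ℂ → Prop), Par T.q Λ → (∀ z, Λ z → ‖z‖ ^ 2 = (T.q : ℝ)) →
      ∀ X : G.U, Raw.GenBy (D.Gn Λ) (Mot.h T (G.v X)) → ∀ n : ℕ, (G.coh X).L n) ∧
    (∀ (q : ℕ) (v : AbsoluteValue (AlgebraicClosure ℚ) ℝ) (S₁ S₂ : Set ℤ[X]), IsPrimePow q →
      Val q v → S₁ ⊆ FL q → (∀ h ∈ S₂, h ∈ RW h.natDegree q) →
      (∀ h ∈ S₁, ∀ h' ∈ S₂, (Om q h').ncard < (Om q h).ncard) →
      (Par q (Adm q (S₁ ∪ S₂)) ↔ Cr q v S₁ ∧ Par q (Adm q S₂)) ∧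
        ∀ z, Adm q (S₁ ∪ S₂) z → ‖z‖ ^ 2 = (q : ℝ)) ∧
    ∃ S : ℕ → Set ℤ[X],
      (∀ q, IsPrimePow q → S q ⊆ FL q ∧ Ord 1 q ⊆ S q ∧
        (∀ h ∈ S q, (Om q h).ncard = 2 * h.natDegree) ∧
        (∃ v, Val q v) ∧ (∀ v, Val q v → Cr q v (S q)) ∧
        ∀ N : Set ℤ[X],
          (N = T2 q ∧ (q = 3 ∨ q = 7 ∨ q = 11 ∨ q = 27 ∨ q = 43 ∨ q = 243)) ∨
          (N = OT q ∧ (q ≤ 16 ∨ q = 25 ∨ q = 32 ∨ q = 49 ∨ q = 64 ∨ q = 81 ∨ q = 125 ∨
            q = 256 ∨ q = 512)) ∨
          (N = NO q ∧ q % 4 = 3) ∨ N = UN5.ND q →
          Par q (Adm q (S q ∪ (All 1 q ∪ N))) ∧
          ∀ z, Adm q (S q ∪ (All 1 q ∪ N)) z → ‖z‖ ^ 2 = (q : ℝ)) ∧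
      ∀ (g : ℕ) (A : ℕ → Set ℤ[X]), 1 ≤ g →
        (∀ q, IsPrimePow q → Ord g q ⊆ A q ∧ A q ⊆ All g q) →
        Tendsto (fun q : {q : ℕ // IsPrimePow q} => ((S q ∩ A q).ncard : ℝ) / (A q).ncard)
          atTop (nhds 1) :=
  ⟨fun _ _ _ _ _ D G Λ h1 h2 X h3 n => Pool.Agent.WAG.fgW D G Λ h1 h2 X h3 n,
    fun _ _ _ _ hq hv h1 h2 hlt => UN5.union_iff hq hv h1 h2 hlt, UN5.fin⟩

end Pool.Agent.Results.MP_cb388a_ag.AlmostAllAbelianVarieties
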