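import Pool.Agent.LFQ.Fin

/-!
# MP_cb388a_ag: quadratic equations and finite generation of Weil-etale motivic (co)homology

All definitions used by the statement are in `Pool/Agent/LFQ/Defs.lean`, `Pool/Agent/UQ/Defs.lean` (the
class `Member k d` and the systems of quadratic forms), `Pool/Agent/LFQ/Coh.lean` (the cohomology `Coh` of a
smooth projective variety) and `Pool/Agent/Lib_helper55/Beil/Defs.lean` (varieties, dimension of points).

`BM k Λ` is a homology theory with the maps of Weil-etale Borel-Moore motivic homology with coefficients in
the noetherian ring `Λ`; `BM.Pub` is the list of its published properties which are used; `BM.FG X` means that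
all homology groups of `X` are finitely generated.  The example is `Λ = ℤ_ℓ`, `ℓ ≠ 2, p`.

* `UQ.Members k d`: varieties which belong to the class `Member k d`: varieties defined by any number of linear
  and by `r` quadratic equations over a base of dimension `e`, `e ≤ d`, `r + e ≤ d + 1`; by `d + 2` quadratic
  forms in an odd number of variables; cubic hypersurfaces of dimension at most `d + 2`; separably uniruled
  varieties of dimension `d + 1`; ...
* `BM.Main`: finite generation holds for all members for `d = 1`, in particular for the intersections of two
  quadrics, the varieties defined by three quadratic forms in an odd number of variables, and the cubic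
  hypersurfaces of dimension at most three, with arbitrary singularities.  For every `d` it extends from all
  varieties of dimension at most `d` to the members.
* `BM.Quadrics` (characteristic different from two): for every `d` finite generation for all varieties of
  dimension at most `d` is equivalent to finite generation for the zero sets of `d + 2` quadratic forms
  `f_j` over `k` in an odd number of variables whose generic linear combination is nondegenerate, and to
  finite generation for the cubic hypersurfaces `t_0 f_0(x) + ... + t_(d+1) f_(d+1)(x) = 0`; an even number of
  variables corresponds to the double covers of the affine space of dimension `d + 1`.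
* `Each` (characteristic different from two): each integral variety `X` of dimension at most `d + 1` has a
  system of `d + 3` quadratic forms in an odd number of variables, nondegenerate as above, such that
  finite generation for `X` is equivalent to finite generation for the zero set, and for the cubic
  hypersurface, if finite generation holds in dimension at most `d`; nothing is assumed for surfaces.
* `Fam`: the groups `H_W^i(Y, ℤ(n))` for all smooth projective integral varieties `Y` over `k`;
  `H_W^i(Y, ℤ(n)) ⊗ ℤ_ℓ` is a homology group of the theory `T`.  All groups `H_W^i(Y, ℤ(n))` are finitely
  generated if and only if the homology of `Y` is, for one `ℓ`.  With alterations (`PAlt`), `Fam.Main`: the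
  question `Q1` for all `Y` of dimension at most `d` is equivalent to finite generation for `d + 2` quadratic
  forms in an odd number of variables; the question `Q1` for all `Y` is equivalent to finite generation for the
  smooth affine hypersurfaces `y ^ 2 - y = t_0 f_0(x) + ... + t_m f_m(x)`, where the `f_j` are polynomials of
  degree at most two.
-/

set_option autoImplicit false

universe v

namespace Pool.Agent.Results.MP_cb388a_ag.FewQuadrics

open LFQ Pool.Agent.Lib_helper55

/-- See the description at the beginning of this file. -/
theorem result :
    (∀ (k : Type) [Field k] (d : ℕ), UQ.Members k d) ∧
    (∀ (k Λ : Type) [Field k] [Finite k] [CommRing Λ] [IsNoetherianRing Λ] (T : BM.{v} k Λ),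
      IsUnit (2 : Λ) → T.Pub → T.Main) ∧
    (∀ (k : Type) [Field k] [Finite k], (2 : k) ≠ 0 → ∀ (d : ℕ) (X : Beil.Var k), Each.{v} k d X) ∧
    (∀ (k : Type) [Field k] [Finite k] (ℓ : Nat.Primes) (T : BM.{v} k (Zp ℓ)) (F : Fam k ℓ T),
      (ℓ : ℕ) ≠ 2 → ¬ CharP k ℓ → T.Pub →
      (∀ {Y : Beil.Var k} {d : ℕ} (h : SPj Y d), T.FG Y ↔ F.L h) ∧ (PAlt k → F.Main)) :=
  ⟨UQ.members, fun _ _ _ _ _ _ _ h2 hT => main hT h2, fun _ _ _ h2 d X => eachX h2 d X,
    fun _ _ _ _ _ F hℓ hp hT => ⟨fun h => link F hT hp h, fun hA => famMain F hℓ hp hT hA⟩⟩

end Pool.Agent.Results.MP_cb388a_ag.FewQuadrics
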