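import Pool.Agent.FMS.Brg3

/-!
# MP_cb388a_ag: equations with few terms, systems of Delsarte type, quadratic equations

All definitions used by the statement are in `Pool/Agent/FMS/Lang.lean`,
`Pool/Agent/LFQ/Coh.lean` (the cohomology `Coh` of one smooth projective variety) and
`Pool/Agent/Lib_helper55/Beil/Defs.lean` (varieties, dimension of points).

`BM k Λ` is a homology theory with the maps of Weil-etale Borel-Moore motivic homology with coefficients
in the noetherian ring `Λ`; `BM.Pub` is the list of its published properties which are used; `BM.FG X`
means that all homology groups of `X` are finitely generated.  The example is `Λ = ℤ_ℓ`, `ℓ ≠ 2, p`.

* `Bld B`: the class of varieties built from the varieties with the property `B` (cut and paste, affine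
  lines, descent along free and finite etale coverings, line bundles without the zero section, quadric
  cones, ...).  `Built.bld`: finite generation extends from `B` to `Bld B`.
* `Res (Comp k m) X`: all residue fields of `X` are contained in composita of algebraic extensions of `k`
  and `m` fields of transcendence degree at most one.
* `Over m N h X`: products of an affine variety with this property, of at most `h` affine Fermat curves
  of degree `N`, of lines and finite sets.
* `Built`: finite generation for the classes built from these varieties.
  * `one`: `Res (Comp k 1)`, without further input.
  * `two`: `Res (Comp k 2)`, if finite generation holds for the smooth projective surfaces whose function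
    field has this property (the surfaces dominated by products of two curves; theorems of Tate and
    Soule), and with the resolution of singularities of surfaces.  `LBuilt.two`: the same for the
    question `Q1`.
  * `herm`: `Over m N h` for all `h`, if `N ∣ p ^ a (p ^ ν + 1)` and `m ≤ 2`: for `m = 0` without further
    input, for `m = 1` with the input of `two`, for `m = 2` if, in addition, finite generation holds for
    the products of these surfaces and affine curves (Soule).
  * `three`: `Over 2 N 1` for all `N`, with the same input.
  * `small`: the varieties whose residue fields have transcendence degree at most one, or transcendence
    degree two and the property `Φ`, with the input for the surfaces with the property `Φ`.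
  * `ruled`: the case that `Φ` is the property `Rul k`, the function fields of products of an affine
    variety of dimension at most one and the affine line, without further input.
* `Families`: varieties in these classes.
  * `eqs`: zero sets over an affine variety of dimension at most `d ≤ 1` of systems which consist of a
    system `f` which needs `m` additional additions (`Add`) and of a system `g` of Delsarte type of
    exponent `N`, the coefficients of which are terms in the variables of `f`, with any number of
    equations and monomials, are built from `Over (m + d) N h`, if the sum of the numbers
    `(monomials - 2)` for the equations of `g` is at most `h`.
  * `few`, `mono`: equations with at most two monomials, except for `m` equations with three; one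
    polynomial with at most `m + 2` monomials.
  * `mix`: `f` and any number of equations `∑ a_j(y) x_j ^ (e_j) + c_i(y) = 0`, where the `a_j` and `c_i`
    are terms and `e_j` is one or two, with any number of new variables; every new variable occurs in
    one equation.
  * `none`, `move`: `Over m N 0` is built from `Res (Comp k m)`, `Over m N (h + 1)` is built from
    `Over (m + 1) N h`.
  * `quad`: a quadratic form over an affine variety, if all residue fields and all discriminant double
    covers of them have the property `Φ`.
  * `odd`: a quadratic form over an affine variety, the residue fields of which have transcendence degree
    at most one, or transcendence degree two and the property `Φ`, if the rank is odd at the points of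
    the second kind.
  * `act`: affine varieties with an action of a torus, if the fields generated by the monomials of degree
    zero at the points have the property `Φ`.
  * `proj`: from affine cones to projective varieties.
* `LBuilt`: the groups `H_W^i(Y, ℤ(n))` of the smooth projective varieties `Y` over `k`.
-/

set_option autoImplicit false

universe v

namespace Pool.Agent.Results.MP_cb388a_ag.FewTerms

open FTS LFQ

/-- See the description at the beginning of this file. -/
theorem result :
    (∀ (k : Type) [Field k], FTS.Families k) ∧
    (∀ (k Λ : Type) [Field k] [Finite k] [CommRing Λ] [IsNoetherianRing Λ] (T : FTS.BM.{v} k Λ),
      IsUnit (2 : Λ) → T.Pub → FTS.Built T) ∧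
    (∀ (k : Type) [Field k] [Finite k] (ℓ : Nat.Primes) (T : FTS.BM.{v} k (LFQ.Zp ℓ))
      (F : FTS.Fam k ℓ T), (ℓ : ℕ) ≠ 2 → ¬ CharP k ℓ → T.Pub → FTS.LBuilt F) :=
  ⟨FTS.Brg.families, fun _ _ _ _ _ _ T h2 hT => FTS.Brg.built T h2 hT,
    fun _ _ _ _ _ F hℓ hp hT => FTS.Brg.lbuilt F hℓ hp hT⟩

end Pool.Agent.Results.MP_cb388a_ag.FewTerms
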