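import Pool.Agent.GZT.Main
import Pool.Agent.GZT.RX
import Pool.Agent.GZT.Thr
import Pool.Agent.GZT.Frac

/-!
# `G_0` of every finitely generated ring is `G_0` of a smooth cubic with coefficients `0, 1`

Let `S` be a set of subsets of `{1, …, n}` and let `H = Hyp k S` be the algebra of functions on the
hypersurface

`w^2 - w = ∑_{s ∈ S} ∏_{v ∈ s} x_v`

over a ring `k`. The pair `(S, I)`, `I` a subset of `{1, …, n}`, is *sparse* if every `s ∈ S` has at
most three elements and exactly one element in `I` and every variable lies in at most three `s ∈ S`.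

(1) `Three`: For every finitely generated commutative ring `A` there is a sparse pair `(S, I)` such
that for every noetherian ring `k` the algebra `H` is smooth over `k` and `G_0(H)` is isomorphic to
`G_0(k ⊗ A) ⊕ G_0(k)`.

(2) `Two`: If every `s ∈ S` has exactly one element in `I` and every variable in `I` lies in at most
two `s ∈ S`, then `G_0(H)` is finitely generated, for every field `k` and for every ring `k` which is
finite over the integers.

(3) For every ring `k` of fractions of integers (for instance `ℤ`, `ℚ`, `ℤ/m`): `G_0(A)` is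
finitely generated (is of finite rank) for all finitely generated commutative `k`-algebras `A` if
and only if it is for all the algebras `H`, `(S, I)` sparse.

Everything is proved from the definition of `G_0`, without hypotheses.
-/

namespace Pool.Agent.Results.MP_cb388a_ag.ZeroOneCubics

open Pool.Agent.GZero (G0 G0.mk FMod)
open Pool.Agent.GZT
open scoped TensorProduct

universe u

/-- The algebra `H = Hyp k S` is smooth over `k`, and `G_0(H) = G_0(R) ⊕ G_0(k)`, where the class
of `H ⊗ Q`, `Q` a finitely generated `k`-module, corresponds to `(0, [Q])`. -/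
def Splits (k R : Type u) [CommRing k] [CommRing R] {n : ℕ} (S : Finset (Finset (Fin n))) : Prop :=
  Algebra.Smooth k (Hyp k S) ∧ ∃ e : G0 (Hyp k S) ≃+ G0 R × G0 k,
    ∀ Q : FMod k, e (G0.mk (Q.ext (Hyp k S))) = (0, G0.mk Q)

/-- Part (1). -/
def Three : Prop :=
  ∀ (A : Type u) [CommRing A] [Algebra.FiniteType ℤ A],
    ∃ (n : ℕ) (S : Finset (Finset (Fin n))) (I : Finset (Fin n)), Sparse S I ∧
      ∀ (k : Type u) [CommRing k] [IsNoetherianRing k], Splits k (k ⊗[ℤ] A) S

/-- Part (2). -/
def Two : Prop :=
  ∀ (k : Type u) [CommRing k], IsField k ∨ Module.Finite ℤ k →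
    ∀ (n : ℕ) (S : Finset (Finset (Fin n))) (I : Finset (Fin n)),
      (∀ s ∈ S, (s ∩ I).card = 1) → (∀ v ∈ I, (S.filter fun s => v ∈ s).card ≤ 2) →
      AddGroup.FG (G0 (Hyp k S))

/-- `G_0(A)` is finitely generated for all finitely generated commutative `k`-algebras `A`. -/
def AllFG (k : Type u) [CommRing k] : Prop :=
  ∀ (A : Type u) [CommRing A] [Algebra k A] [Algebra.FiniteType k A], AddGroup.FG (G0 A)

/-- `G_0(H)` is finitely generated for all sparse cubics `H` over `k`. -/
def SparseFG (k : Type u) [CommRing k] : Prop :=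
  ∀ (n : ℕ) (S : Finset (Finset (Fin n))) (I : Finset (Fin n)), Sparse S I →
    AddGroup.FG (G0 (Hyp k S))

/-- `G_0(A) ⊗ ℚ` is finite dimensional for all finitely generated commutative `k`-algebras `A`. -/
def AllRank (k : Type u) [CommRing k] : Prop :=
  ∀ (A : Type u) [CommRing A] [Algebra k A] [Algebra.FiniteType k A],
    Module.Finite ℚ (ℚ ⊗[ℤ] G0 A)

/-- `G_0(H) ⊗ ℚ` is finite dimensional for all sparse cubics `H` over `k`. -/
def SparseRank (k : Type u) [CommRing k] : Prop :=
  ∀ (n : ℕ) (S : Finset (Finset (Fin n))) (I : Finset (Fin n)), Sparse S I →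
    Module.Finite ℚ (ℚ ⊗[ℤ] G0 (Hyp k S))

theorem part1 : Part1.{u} := by
  intro A _ _
  obtain ⟨n, S, I, h1, h2, h3, h4⟩ := exists_cubic A
  exact ⟨n, S, I, ⟨fun s hs => ⟨h1 s hs, h3 s hs⟩, h2⟩, h4⟩

theorem fg_hyp (k : Type u) [CommRing k] [IsNoetherianRing k] (hk : Base k) {n : ℕ}
    (S : Finset (Finset (Fin n))) (I : Finset (Fin n)) (hI : ∀ s ∈ S, (s ∩ I).card = 1)
    (h2 : ∀ v ∈ I, (S.filter fun s => v ∈ s).card ≤ 2) : AddGroup.FG (G0 (Hyp k S)) :=
  fg_hyp_of_closed (fun _ _ _ s h1 h2 => fg_of_closed_open s h1 h2) k hk S I hI h2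

theorem two : Two.{u} := by
  rintro k _ (h | h) n S I hI h2
  · let _ := h.toField
    exact fg_hyp k (base_field k) S I hI h2
  · have : IsNoetherianRing k := IsNoetherianRing.of_finite ℤ k
    exact fg_hyp k (base_int k) S I hI h2

/-- `G_0` and cubics with coefficients `0, 1`: with three occurrences of every variable one gets
every finitely generated ring, with two occurrences the group is finitely generated. -/
theorem result :
    Three.{u} ∧ Two.{u} ∧
    ∀ (k : Type u) [CommRing k], (∀ x : k, ∃ s a : ℤ, IsUnit (s : k) ∧ (s : k) * x = a) →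
      (AllFG k ↔ SparseFG k) ∧ (AllRank k ↔ SparseRank k) :=
  ⟨part1, two, fun k _ hk => ⟨fg_iff' part1 k hk, rat_iff' part1 k hk⟩⟩

end Pool.Agent.Results.MP_cb388a_ag.ZeroOneCubics
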